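import Pool.Agent.H70.LZ.Stm
import Pool.Agent.H42.NE.Stm

set_option autoImplicit false

open Finset

namespace H70.LZ

section
variable {R S : Type} [CommRing R] [Ring S] [Algebra R S]

/-- the filtration `1 ⊔ J, J, J^2, …` -/
def filJ (c : ℕ) (J : Submodule R S) (hmul : J * J ≤ J) (hnil : J ^ (c + 1) = ⊥)
    (hinv : ∀ n : ℕ, 1 ≤ n → n ≤ c → IsUnit (n : R)) : Fil R S c where
  F := fun i => match i with
    | 0 => 1 ⊔ J
    | n + 1 => J ^ (n + 1)
  anti := by
    intro i
    cases i with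
    | zero => simp
    | succ n =>
      show J ^ (n + 1 + 1) ≤ J ^ (n + 1)
      calc J ^ (n + 1 + 1) = J ^ n * (J * J) := by rw [pow_succ, pow_succ, mul_assoc]
        _ ≤ J ^ n * J := by gcongr
        _ = J ^ (n + 1) := (pow_succ J n).symm
  one := Submodule.mem_sup_left (Submodule.one_le.1 le_rfl)
  mul := by
    have key : ∀ m : ℕ, J * J ^ (m + 1) ≤ J ^ (m + 1) := by
      intro m
      calc J * J ^ (m + 1) = (J * J) * J ^ m := by rw [pow_succ', mul_assoc]
        _ ≤ J * J ^ m := by gcongr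
        _ = J ^ (m + 1) := (pow_succ' J m).symm
    have key' : ∀ m : ℕ, J ^ (m + 1) * J ≤ J ^ (m + 1) := by
      intro m
      calc J ^ (m + 1) * J = J ^ m * (J * J) := by rw [pow_succ, mul_assoc]
        _ ≤ J ^ m * J := by gcongr
        _ = J ^ (m + 1) := (pow_succ J m).symm
    intro i j x y hx hy
    rcases i with _ | i <;> rcases j with _ | j
    · have : (1 ⊔ J) * (1 ⊔ J) ≤ 1 ⊔ J := by
        rw [Submodule.sup_mul, one_mul, Submodule.mul_sup, mul_one]
        exact sup_le le_rfl (sup_le le_sup_right (hmul.trans le_sup_right))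
      exact this (Submodule.mul_mem_mul hx hy)
    · have : (1 ⊔ J) * J ^ (j + 1) ≤ J ^ (j + 1) := by
        rw [Submodule.sup_mul, one_mul]
        exact sup_le le_rfl (key j)
      have h := this (Submodule.mul_mem_mul hx hy)
      simpa using h
    · have : J ^ (i + 1) * (1 ⊔ J) ≤ J ^ (i + 1) := by
        rw [Submodule.mul_sup, mul_one]
        exact sup_le le_rfl (key' i)
      exact this (Submodule.mul_mem_mul hx hy)
    · have h := Submodule.mul_mem_mul hx hy
      have e : J ^ (i + 1) * J ^ (j + 1) = J ^ (i + (j + 1) + 1) := by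
        rw [← pow_add]; congr 1; omega
      rw [e] at h
      have e2 : i + 1 + (j + 1) = i + (j + 1) + 1 := by omega
      show x * y ∈ (match i + 1 + (j + 1) with
        | 0 => 1 ⊔ J
        | n + 1 => J ^ (n + 1))
      rw [e2]
      exact h
  bot := hnil
  inv := hinv

end

theorem ring_inverse_zmod {q : ℕ} {a : ZMod q} (ha : IsUnit a) : Ring.inverse a = a⁻¹ := by
  obtain ⟨u, rfl⟩ := ha
  rw [Ring.inverse_unit]
  have h : (u : ZMod q) * (u : ZMod q)⁻¹ = 1 := ZMod.mul_inv_of_unit _ u.isUnit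
  have h2 : (u : ZMod q) * (↑u⁻¹ : ZMod q) = 1 := u.mul_inv
  calc (↑u⁻¹ : ZMod q) = ↑u⁻¹ * (↑u * (↑u)⁻¹) := by rw [h, mul_one]
    _ = (u : ZMod q)⁻¹ := by rw [← mul_assoc, u.inv_mul, one_mul]

theorem isUnit_zmod' {p N n : ℕ} (hp : p.Prime) (h1 : 1 ≤ n) (h2 : n < p) :
    IsUnit (n : ZMod (p ^ N)) := by
  rw [ZMod.isUnit_iff_coprime]
  exact Nat.Coprime.pow_right N (Nat.coprime_of_lt_prime (by omega) h2 hp).symm

theorem isUnit_fact {p N n : ℕ} (hp : p.Prime) (h2 : n < p) :
    IsUnit (n.factorial : ZMod (p ^ N)) := by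
  rw [ZMod.isUnit_iff_coprime]
  exact Nat.Coprime.pow_right N ((Nat.Prime.coprime_iff_not_dvd hp).2 (by
    rw [hp.dvd_factorial]; omega)).symm

theorem t_SUB (hEXB : S_EXB) (hBCH : S_BCH) : H42.NE.S_SUB := by
  intro p N c hpF hN S _ _ J H _ hU h hhL hbr x hx y hy z hz hxy
  have hp : p.Prime := hpF.out
  have hc : c < p := hU.lt
  set A : Fil (ZMod (p ^ N)) S c := filJ c J hU.mul hU.nil
    (fun n h1 h2 => isUnit_zmod' hp h1 (lt_of_le_of_lt h2 hc)) with hA
  have hF1 : A.F 1 = J := by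
    show J ^ (0 + 1) = J
    simp
  have hLJ : H6.NE.LHm p N J H ≤ J := by
    refine Submodule.span_le.2 ?_
    rintro w ⟨hw, -⟩
    exact hw
  have hpow : ∀ w ∈ J, ∀ i, c + 1 ≤ i → w ^ i = 0 := by
    intro w hw i hi
    have h1 : w ^ (c + 1) ∈ J ^ (c + 1) := Submodule.pow_mem_pow J hw (c + 1)
    rw [hU.nil, Submodule.mem_bot] at h1
    obtain ⟨j, rfl⟩ := Nat.exists_eq_add_of_le hi
    rw [pow_add, h1, zero_mul]
  have hex : ∀ w ∈ J, H6.NE.ex p N w = ex (ZMod (p ^ N)) c w := by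
    intro w hw
    unfold H6.NE.ex ex
    have h1 : Finset.range (c + 1) ⊆ Finset.range p := by
      intro i hi
      simp only [Finset.mem_range] at hi ⊢
      omega
    rw [← Finset.sum_subset h1]
    · refine Finset.sum_congr rfl fun i hi => ?_
      simp only [Finset.mem_range] at hi
      rw [ring_inverse_zmod (isUnit_fact hp (by omega))]
    · intro i _ hi
      simp only [Finset.mem_range, not_lt] at hi
      rw [hpow w hw i hi, smul_zero]
  have hhJ : h ≤ J := hhL.trans hLJ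
  obtain ⟨z', hz', hz1, hz2⟩ := hBCH (ZMod (p ^ N)) S c A h (hF1.symm ▸ hhJ)
    (fun a ha b hb => hbr a ha b hb) x hx y hy
  have hzz : z = z' := by
    have h1 : ex (ZMod (p ^ N)) c z = ex (ZMod (p ^ N)) c z' := by
      rw [hz1, ← hex z (hLJ hz), hxy, hex x (hhJ hx), hex y (hhJ hy)]
    have h2 := ((hEXB (ZMod (p ^ N)) S c A).2.1 (c + 1) (by omega) z (hF1.symm ▸ hLJ hz) z'
      (hF1.symm ▸ hhJ hz')).2 (by rw [h1, sub_self]; exact zero_mem _)
    rw [A.bot, Submodule.mem_bot] at h2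
    exact sub_eq_zero.1 h2
  rw [hzz]
  exact hz2

end H70.LZ
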