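import Mathlib
import Pool.Agent.H2.KL.Defs

/-!
# KL, block (A): the Lazard correspondence for finite `p`-groups of class `c < p` (MP_895f30)
-/

set_option autoImplicit false

open Finset
open scoped commutatorElement

namespace H70.LZ

/-- a filtration of length `c` of the (noncommutative) `R`-algebra `S`; `1, …, c` are units of `R` -/
structure Fil (R S : Type) [CommRing R] [Ring S] [Algebra R S] (c : ℕ) where
  F : ℕ → Submodule R S
  anti : ∀ i, F (i + 1) ≤ F i
  one : (1 : S) ∈ F 0
  mul : ∀ i j x y, x ∈ F i → y ∈ F j → x * y ∈ F (i + j)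
  bot : F (c + 1) = ⊥
  inv : ∀ n : ℕ, 1 ≤ n → n ≤ c → IsUnit (n : R)

/-- truncated exponential `∑_{i ≤ c} x^i / i!` -/
noncomputable def ex (R : Type) {S : Type} [CommRing R] [Ring S] [Algebra R S] (c : ℕ) (x : S) : S :=
  ∑ i ∈ range (c + 1), Ring.inverse (i.factorial : R) • x ^ i

/-- ring commutator -/
def cm {S : Type} [Ring S] (x y : S) : S := x * y - y * x

/-- `(ad x)^i y` -/
def adp {S : Type} [Ring S] (x : S) (i : ℕ) (y : S) : S := (fun w => cm x w)^[i] y

/-- span of the commutators of elements of `m` -/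
def cmSpan (R : Type) {S : Type} [CommRing R] [Ring S] [Algebra R S] (m : Submodule R S) :
    Submodule R S := Submodule.span R {w | ∃ a ∈ m, ∃ b ∈ m, w = cm a b}

/-- logarithms of the elements of `H` -/
def lg {R S : Type} [CommRing R] [Ring S] [Algebra R S] {c : ℕ} (A : Fil R S c) (H : Subgroup Sˣ) :
    Set S := {x | x ∈ A.F 1 ∧ ∃ h ∈ H, (h : S) = ex R c x}

/-- lower central series, `gm Γ 0 = Γ`, `gm Γ (m+1) = [gm Γ m, Γ]` -/
def gm (Γ : Type) [Group Γ] (m : ℕ) : Subgroup Γ := (⊤ : Subgroup Γ).lowerCentralSeries m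

/-- left normed group commutator of the letters of a word -/
def gc {Γ X : Type} [Group Γ] (f : X → Γ) : List X → Γ
  | [] => 1
  | a :: l => l.foldl (fun g b => ⁅g, f b⁆) (f a)

/-- left normed ring commutator of the letters of a word -/
def rc {S X : Type} [Ring S] (x : X → S) : List X → S
  | [] => 0
  | a :: l => l.foldl (fun s b => cm s (x b)) (x a)

/-- `x` generates a free algebra modulo `F (c+1)`: linear maps can be prescribed on the words of length
`n ≤ c` and zero on `F (n+1)` -/
def IsFree {R S X : Type} [CommRing R] [Ring S] [Algebra R S] {c : ℕ} (A : Fil R S c) (x : X → S) :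
    Prop := (∀ j, x j ∈ A.F 1) ∧ ∀ n, n ≤ c → ∀ (M : Type) [AddCommGroup M] [Module R M]
  (φ : List X → M), ∃ D : S →ₗ[R] M, (∀ w : List X, w.length = n → D ((w.map x).prod) = φ w) ∧
    ∀ s ∈ A.F (n + 1), D s = 0

open H2.KL in
/-- `L` matches subgroups with subrings, normal subgroups with ideals, cosets with cosets -/
def GoodL {K k : Type} [Group K] [LieRing k] (L : LExp K k) : Prop :=
  ∀ B : Subgroup K, ∃ b : AddSubgroup k, IsSub b ∧ (∀ x, x ∈ b ↔ L.e x ∈ B) ∧
    (B.Normal → IsIdl b ∧ ∀ x y, x - y ∈ b ↔ (L.e y)⁻¹ * L.e x ∈ B)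

open H2.KL in
/-- the group `K` has a Lie structure -/
def HasLExp (K : Type) [Group K] : Prop :=
  ∃ (k : Type) (_ : LieRing k) (_ : Finite k) (L : LExp K k), GoodL L

end H70.LZ
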