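import Pool.Agent.H70.LZ.Stm

set_option autoImplicit false

open Finset
open scoped commutatorElement

namespace H70.LZ

theorem isUnit_zmod {p N n : ℕ} (hp : p.Prime) (h1 : 1 ≤ n) (h2 : n < p) :
    IsUnit (n : ZMod (p ^ N)) := by
  rw [ZMod.isUnit_iff_coprime]
  exact Nat.Coprime.pow_right N (Nat.coprime_of_lt_prime (by omega) h2 hp).symm

theorem t_LAZ (hEXB : S_EXB) (hEXA : S_EXA) (hFRE : S_FRE) (hCOV : S_COV) (hQUA : S_QUA)
    (hQUB : S_QUB) (hMAG : S_MAG) : S_LAZ := by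
  intro p c hp hc K _ _ hK hcl
  have : Fact p.Prime := ⟨hp⟩
  obtain ⟨N, hN⟩ := (IsPGroup.iff_card (p := p) (G := K)).1 hK
  have : NeZero (p ^ N) := ⟨pow_ne_zero _ hp.ne_zero⟩
  obtain ⟨S, iR, iF, iA, A, x, hfree⟩ := hFRE (p ^ N) c K
    (fun n h1 h2 => isUnit_zmod hp h1 (lt_of_le_of_lt h2 hc))
  have hu : ∀ j : K, ∃ u : Sˣ, (u : S) = 1 + x j := by
    intro j
    obtain ⟨y, hy, hy'⟩ := (hEXB (ZMod (p ^ N)) S c A).2.2 (1 + x j) (by simpa using hfree.1 j)
    have hEx := hEXA (ZMod (p ^ N)) S c A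
    have h1 : ex (ZMod (p ^ N)) c y * ex (ZMod (p ^ N)) c (-y) = 1 := by
      rw [← hEx.2 y hy (-y) (neg_mem hy) (Commute.neg_right (Commute.refl y)), add_neg_cancel, hEx.1]
    have h2 : ex (ZMod (p ^ N)) c (-y) * ex (ZMod (p ^ N)) c y = 1 := by
      rw [← hEx.2 (-y) (neg_mem hy) y hy (Commute.neg_left (Commute.refl y)), neg_add_cancel, hEx.1]
    exact ⟨⟨_, _, h1, h2⟩, hy'⟩
  choose u hu using hu
  set Γ : Subgroup (Sˣ × K) := Subgroup.closure (Set.range fun j => (u j, j)) with hΓ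
  set f : Γ →* Sˣ := (MonoidHom.fst Sˣ K).comp Γ.subtype with hf
  have hcov := hCOV p N c hp hc S A K x hfree K (fun j => j) u hcl
    (fun g => by rw [← hN]; exact pow_card_eq_one') hu
  have hinj : Function.Injective f := by
    rw [injective_iff_map_eq_one]
    rintro ⟨⟨a, κ⟩, ha⟩ h
    have h1 : a = 1 := by simpa [hf] using h
    subst h1
    have h2 : κ = 1 := hcov κ ha
    subst h2
    rfl
  have hmag := hMAG (ZMod (p ^ N)) S c A K x u hfree.1 hu
  have hH : ∀ h ∈ f.range, ((h : Sˣ) : S) - 1 ∈ A.F 1 := by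
    rintro h ⟨⟨⟨a, κ⟩, ha⟩, rfl⟩
    have : ∀ z ∈ Γ, ((z.1 : Sˣ) : S) - 1 ∈ A.F 1 := by
      intro z hz
      induction hz using Subgroup.closure_induction with
      | mem z hz =>
        obtain ⟨j, rfl⟩ := hz
        simpa [hu j] using hfree.1 j
      | one => simp
      | mul z w _ _ h1 h2 =>
        have e : (((z * w).1 : Sˣ) : S) - 1
            = (((z.1 : Sˣ) : S) - 1) * (((w.1 : Sˣ) : S) - 1) + (((z.1 : Sˣ) : S) - 1)
              + (((w.1 : Sˣ) : S) - 1) := by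
          rw [Prod.fst_mul, Units.val_mul]; noncomm_ring
        rw [e]
        exact add_mem (add_mem (A.anti 1 (A.mul 1 1 _ _ h1 h2)) h1) h2
      | inv z _ h1 => exact hmag.1 _ h1
    exact this (a, κ) ha
  have hlex : HasLExp f.range := hQUA (p ^ N) c S A f.range hH
  set θ : f.range →* K := ((MonoidHom.snd Sˣ K).comp Γ.subtype).comp
    (MonoidHom.ofInjective hinj).symm.toMonoidHom with hθ
  refine hQUB f.range K θ ?_ hlex
  intro κ
  refine ⟨MonoidHom.ofInjective hinj ⟨(u κ, κ), Subgroup.subset_closure ⟨κ, rfl⟩⟩, ?_⟩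
  simp [hθ]

end H70.LZ
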