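import Pool.Agent.H70.LZ.SUB
import Pool.Agent.H12.LZ.Exp
import Pool.Agent.H96.LZ.BCH
import Pool.Agent.H96.LZ.ODE

set_option autoImplicit false

namespace H70.LZ

theorem p_ODE : S_ODE := H96.LZ.t_ODE

theorem p_BCH : S_BCH := H96.LZ.t_BCH H12.LZ.t_EXB H12.LZ.t_EXA p_ODE

/-- `S_SUB` without hypotheses -/
theorem p_SUB : H42.NE.S_SUB := t_SUB H12.LZ.t_EXB p_BCH

end H70.LZ
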