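import Pool.Agent.H70.LZ.Defs

/-!
# Statements of the Lazard block.  `γ m = gm Γ m` has weight `m + 1`.
Every part may take other statements as hypotheses (`theorem t_BCH (h1 : S_EXB) ... : S_BCH`).
-/

set_option autoImplicit false

open Finset
open scoped commutatorElement

namespace H70.LZ

/-- EXB (100 lines).  `ex` is a bijection `F 1 → 1 + F 1` compatible with the filtration.
Proof.  `F` is antitone, `F j = ⊥` for `j > c`; `x ∈ F 1 ⇒ x^i ∈ F i`.  For `x, y ∈ F 1` with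
`x - y ∈ F s` (`s ≥ 1`): `x^i - y^i = ∑ x^a (x-y) y^b ∈ F (s + i - 1)`, so
`ex x - ex y ≡ x - y mod F (s+1)`.  This gives the equivalence (`←`: induction on `s`, start `s = 1`
by hypothesis `x, y ∈ F 1`) and, by successive approximation (`x' = x + (u - ex x)`), surjectivity. -/
def S_EXB : Prop := ∀ (R S : Type) [CommRing R] [Ring S] [Algebra R S] (c : ℕ) (A : Fil R S c),
  (∀ x ∈ A.F 1, ex R c x - 1 ∈ A.F 1) ∧
  (∀ s, 1 ≤ s → ∀ x ∈ A.F 1, ∀ y ∈ A.F 1, (x - y ∈ A.F s ↔ ex R c x - ex R c y ∈ A.F s)) ∧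
  (∀ u, u - 1 ∈ A.F 1 → ∃ x ∈ A.F 1, ex R c x = u)

/-- EXA (80 lines).  `ex (x + y) = ex x * ex y` for commuting `x, y ∈ F 1`.
Proof.  `Commute.add_pow`, `n.choose i / n! = 1 / (i! (n-i)!)` in `R` (units), and
`x^i y^j ∈ F (i+j) = ⊥` for `i + j > c`. -/
def S_EXA : Prop := ∀ (R S : Type) [CommRing R] [Ring S] [Algebra R S] (c : ℕ) (A : Fil R S c),
  ex R c (0 : S) = 1 ∧ ∀ x ∈ A.F 1, ∀ y ∈ A.F 1, Commute x y → ex R c (x + y) = ex R c x * ex R c y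

/-- ADE (120 lines).  `e^x y e^{-x} = ∑ (ad x)^i y / i!` and `e^x e^y e^{-x} = e^{Ad y}`.
Proof.  `(ad x)^n y = ∑_{i+j=n} (-1)^j C(n,i) x^i y x^j` (induction on `n`), divide by `n!`, terms
with `i + j > c` vanish.  Second: `(e^x y e^{-x})^n = e^x y^n e^{-x}` since `e^{-x} e^x = 1` (EXA). -/
def S_ADE : Prop := ∀ (R S : Type) [CommRing R] [Ring S] [Algebra R S] (c : ℕ) (A : Fil R S c),
  ∀ x ∈ A.F 1, ∀ y ∈ A.F 1,
    ex R c x * y * ex R c (-x) = ∑ i ∈ range (c + 1), Ring.inverse (i.factorial : R) • adp x i y ∧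
    ex R c x * ex R c y * ex R c (-x) = ex R c (ex R c x * y * ex R c (-x))

/-- ODE (150 lines).  For a derivation `D` with `w = D z`:
`D (e^z) = (∑_{j<c} (ad z)^j w / (j+1)!) e^z`.
Proof.  `D (z^n) = ∑_{i<n} z^i w z^{n-1-i} = ∑_{j<n} C(n,j+1) (ad z)^j w z^{n-1-j}`
(induction on `n`, using `z v = v z + (ad z) v`), divide by `n!`: `C(n,j+1)/n! = 1/((j+1)! (n-1-j)!)`.
All products `(ad z)^j w z^m` with `j + m ≥ c` are in `F (c+1) = ⊥`. -/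
def S_ODE : Prop := ∀ (R S : Type) [CommRing R] [Ring S] [Algebra R S] (c : ℕ) (A : Fil R S c)
  (D : S →ₗ[R] S), (∀ a b, D (a * b) = D a * b + a * D b) → ∀ z ∈ A.F 1, D z ∈ A.F 1 →
  D (ex R c z) = (∑ j ∈ range c, Ring.inverse ((j + 1).factorial : R) • adp z j (D z)) * ex R c z

/-- BCH (200 lines).  For a Lie subring `m ⊆ F 1` and `x, y ∈ m`: `e^x e^y = e^z` with `z ∈ m` and
`z - x - y` in the span of the commutators of `m`.
Proof.  Let `P = S[t]` with the filtration `F' i = {f | ∀ k, f.coeff k ∈ F (max i k)}` (it is a `Fil`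
of length `c`), `D` the derivative (maps `F' i` to itself).  By EXB in `P` there is `Z ∈ F' 1` with
`e^Z = e^{t x} e^y`; `D e^{t x} = x e^{t x}` (ODE, `(ad tx)^j x = 0` for `j ≥ 1`), so ODE and
cancelling `e^Z` give (*) `∑_{j<c} (ad Z)^j (Z') / (j+1)! = x`.  CLAIM 1: all coefficients of `Z` are in
`m + F s`, for all `s ≥ 1`: induction on `s`; if `Z = M + E` with `M` coefficientwise in `m` and `E` in
`F s`, then `(ad Z)^j Z' ≡ (ad M)^j M' mod F (s+1)` for `j ≥ 1`, so by (*) `Z' ∈ m + F (s+1)`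
coefficientwise; coefficient `k` of `Z'` is `(k+1) Z_{k+1}`, `k + 1 ≤ c` is a unit, `Z_k ∈ F k = ⊥` for
`k > c`; and `Z_0 = y` (injectivity of `ex`; evaluate at `t = 0`).  So `Z` has coefficients in `m`
(`s = c+1`).  CLAIM 2: by (*) again `Z' - x` has coefficients in `cmSpan m`, so `Z_1 - x` and `Z_k`,
`k ≥ 2`, are in `cmSpan m`.  Put `z = Z(1)`. -/
def S_BCH : Prop := ∀ (R S : Type) [CommRing R] [Ring S] [Algebra R S] (c : ℕ) (A : Fil R S c)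
  (m : Submodule R S), m ≤ A.F 1 → (∀ a ∈ m, ∀ b ∈ m, cm a b ∈ m) → ∀ x ∈ m, ∀ y ∈ m,
  ∃ z ∈ m, ex R c z = ex R c x * ex R c y ∧ z - x - y ∈ cmSpan R m

/-- NIL (120 lines).  Linear algebra of `E = e^N`, `N` nilpotent.
Proof.  `E - 1 = N U = U N`, `U = 1 + nilpotent polynomial in N`.  (i) if `(E-1) W ⊆ W` then
`N = ∑_{j=1}^{c-1} (-1)^{j+1} (E-1)^j / j` maps `W` to `W` (or: `N = (E-1) V`, show by downward induction
that `N^i W ⊆ W`, `i = c, c-1, …, 1`: `N^i w = (E-1)^i w - (combination of N^j w, j > i)`).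
(ii) `U` and its inverse (a polynomial in `N`) map `W` to `W`, so `N W = (E-1) W`.
(iii) `(E-1) w = 0 ⇒ U N w = 0 ⇒ N w = 0`. -/
def S_NIL : Prop := ∀ (R V : Type) [CommRing R] [AddCommGroup V] [Module R V] (c : ℕ),
  (∀ n : ℕ, 1 ≤ n → n ≤ c → IsUnit (n : R)) → ∀ (N E : V →ₗ[R] V), N ^ c = 0 →
  E = ∑ i ∈ range (c + 1), Ring.inverse (i.factorial : R) • N ^ i → ∀ W : Submodule R V,
  ((∀ w ∈ W, E w ∈ W) → ∀ w ∈ W, N w ∈ W) ∧
  ((∀ w ∈ W, N w ∈ W) → (∀ w ∈ W, ∃ v ∈ W, N w = E v - v) ∧ (∀ w ∈ W, ∃ v ∈ W, E w - w = N v)) ∧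
  (∀ w, E w = w → N w = 0)

/-- BC2 (150 lines).  Consequences of BCH.  `m` a Lie subring, `i ≤ m` an ideal of `m`.
(a) `x, y ∈ m`, `[x, y] ∈ i` ⇒ `e^x e^y = e^z`, `z - x - y ∈ i` (BCH for the subring `R x + R y + i`).
(b) `x ∈ m`, `y ∈ i'`, `i' ≤ m` an ideal, `[m, [m, i']] ⊆ i` (i.e. `i` contains `[a,[b,w]]` for
`a, b ∈ m`, `w ∈ i'`), `i` an ideal of `m`, `i ≤ i'` ⇒ `e^x e^y e^{-x} e^{-y} = e^z`, `z - [x,y] ∈ i`:
by ADE `e^x e^y e^{-x} = e^{y'}`, `y' = y + [x,y] + r`, `r ∈ i`, and (a) for `y', -y`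
(`[y', -y] = -[[x,y] + r, y] ∈ i`).
(c) `i` an ideal of `m`, `x ∈ m`, `n ∈ i` ⇒ `e^{-x} e^{x+n} = e^z`, `z ∈ i`;
`e^x e^n = e^z`, `z - x ∈ i`. -/
def S_BC2 : Prop := ∀ (R S : Type) [CommRing R] [Ring S] [Algebra R S] (c : ℕ) (A : Fil R S c)
  (m i : Submodule R S), m ≤ A.F 1 → (∀ a ∈ m, ∀ b ∈ m, cm a b ∈ m) → i ≤ m →
  (∀ a ∈ m, ∀ b ∈ i, cm a b ∈ i) →
  (∀ x ∈ m, ∀ y ∈ m, cm x y ∈ i → ∃ z ∈ m, ex R c z = ex R c x * ex R c y ∧ z - x - y ∈ i) ∧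
  (∀ i' : Submodule R S, i ≤ i' → i' ≤ m → (∀ a ∈ m, ∀ b ∈ i', cm a b ∈ i') →
    (∀ a ∈ m, ∀ b ∈ m, ∀ w ∈ i', cm a (cm b w) ∈ i) → ∀ x ∈ m, ∀ y ∈ i',
    ∃ z ∈ i', ex R c z = ex R c x * ex R c y * ex R c (-x) * ex R c (-y) ∧ z - cm x y ∈ i) ∧
  (∀ x ∈ m, ∀ n ∈ i, (∃ z ∈ i, ex R c z = ex R c (-x) * ex R c (x + n)) ∧
    ∃ z ∈ m, ex R c z = ex R c x * ex R c n ∧ z - x ∈ i)

/-- CLO (250 lines).  The logarithms of a subgroup of `1 + F 1` form a Lie subring.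
Proof.  Let `m` = Lie subring (= submodule, `ℤ → ZMod q` is surjective) generated by `lg A H`,
`m 1 = m`, `m (n+1) = span [m, m n]` (ideals of `m`, `m n ≤ F n`, so `m (c+1) = 0`).
`m = span (lg H) + m 2`, hence `m (n+1) = span [lg H, m n] + m (n+2)` (use `[m 2, m n] ⊆ m (n+2)`).
CLAIM `Q n`: for every `y ∈ m n` there are `h ∈ H`, `y' ∈ m (n+1)` with `e^y = h e^{y'}`.
`Q 1`: `y = ∑ ± x_i + d`, `x_i ∈ lg H`, `d ∈ m 2`; BC2 (a) with `i = m 2`.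
`Q n ⇒ Q (n+1)`: by BC2 (a) (`[m (n+1), m (n+1)] ⊆ m (n+2)`) it suffices to treat
`y = ±[x, v]`, `x ∈ lg H`, `v ∈ m n`; by `Q n` and BC2 `e^v = h e^{v'}`, `h = e^u`, `u ∈ lg H ∩ m n`,
`u - v ∈ m (n+1)`; so `[x,v] ≡ [x,u] mod m (n+2)`, and by BC2 (b) the group commutator of `e^x` and
`e^u` (an element of `H`) is `e^z`, `z - [x,u] ∈ m (n+2)`.
Then `e^y ∈ H e^{m n}` for all `n` and `y ∈ m`, so `e^y ∈ H`, so `m = lg A H`. -/
def S_CLO : Prop := ∀ (q c : ℕ) (S : Type) [Ring S] [Algebra (ZMod q) S] (A : Fil (ZMod q) S c)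
  (H : Subgroup Sˣ), (∀ h ∈ H, (h : S) - 1 ∈ A.F 1) →
  ∃ m : Submodule (ZMod q) S, (∀ x, x ∈ m ↔ x ∈ lg A H) ∧ ∀ a ∈ m, ∀ b ∈ m, cm a b ∈ m

/-- IDE (120 lines).  Normal subgroups and ideals, cosets and cosets.
Proof.  CLO for `H` and `N`.  `h = e^x` normalises `N`, so (ADE) `Ad(h) = ∑ (ad x)^i / i!` maps `lg N` to
itself; NIL (for the linear map `ad x` on the module `F 1`) gives `[x, lg N] ⊆ lg N`.  So `lg N` is an
ideal of `lg H` and BC2 (c) gives `→`.  `←`: `e^x = e^y e^n`, `n ∈ lg N`; BC2 (c) and injectivity of `ex`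
(EXB) give `x - y ∈ lg N`. -/
def S_IDE : Prop := ∀ (q c : ℕ) (S : Type) [Ring S] [Algebra (ZMod q) S] (A : Fil (ZMod q) S c)
  (H N : Subgroup Sˣ), (∀ h ∈ H, (h : S) - 1 ∈ A.F 1) → N ≤ H →
  (∀ h ∈ H, ∀ n ∈ N, h * n * h⁻¹ ∈ N) →
  (∀ x ∈ lg A H, ∀ n ∈ lg A N, cm x n ∈ lg A N) ∧
  (∀ x ∈ lg A H, ∀ y ∈ lg A H, (x - y ∈ lg A N ↔ ∃ n ∈ N, ex (ZMod q) c x = ex (ZMod q) c y * (n : S)))

/-- QUA (250 lines).  The Lie structure of a subgroup `H` of `1 + F 1`.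
Proof.  `k` = the submodule `m` of CLO with the bracket `cm` (a `LieRing`), `e x = e^x ∈ H`
(bijective: EXB), `Ad h x = h x h⁻¹`.  `e_Ad`: ADE/EXA; `mul`: BCH for the submodule `h` of `m ⊆ S`
(an additive subgroup of a `ZMod q`-module is a submodule: `AddSubgroup.toZModSubmodule`), `der h` is the
same as `cmSpan`; `range_ad`: NIL (ii) with `N = ad x` on `F 1`, `W = m`, `E = Ad (e^x)` (ADE);
`nil`: `lcs k n ⊆ F (n+1)`; `GoodL`: CLO and IDE for the subgroup `B.map H.subtype` of `Sˣ`. -/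
def S_QUA : Prop := ∀ (q c : ℕ) (S : Type) [Ring S] [Finite S] [Algebra (ZMod q) S]
  (A : Fil (ZMod q) S c) (H : Subgroup Sˣ), (∀ h ∈ H, (h : S) - 1 ∈ A.F 1) → HasLExp H

/-- QUB (250 lines, no algebra `S`).  Quotients.
Proof.  `b` = ideal of `ker θ` (GoodL), `k' = k ⧸ b` (LieRing; e.g. make `b` a `LieIdeal ℤ k`, or build the
quotient by hand), `e' [x] = θ (e x)` (well defined and injective by the coset property, surjective).
`Ad' g [x] = [Ad h x]` for a chosen `h` with `θ h = g` (well defined on classes: `e (Ad h x) = h (e x) h⁻¹`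
and `ker θ` is normal, the coset property); `e_Ad` is immediate, and `Ad' g` is determined by it since `e'`
is injective.  `mul`: preimage of the subring.  `range_ad`: images of the sets for `k` (with `g = e' [x]`
use `h = e x`).  `nil`: image of `lcs`.  `GoodL` for `B ≤ K'`: take `θ⁻¹ B ⊇ ker θ`. -/
def S_QUB : Prop := ∀ (H K : Type) [Group H] [Group K] (θ : H →* K), Function.Surjective θ →
  HasLExp H → HasLExp K

/-- FRE (200 lines).  The free algebra truncated above degree `c`.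
Proof.  `W = {w : List X // w.length ≤ c}` (finite), `V = W → ZMod q`, `S = Module.End (ZMod q) V`,
`V j = {v | v w = 0 for w.length < j}`, `F i = {T | ∀ j, T (V j) ⊆ V (i+j)}`, `x a` sends the basis vector
`e_w` to `e_{a :: w}` (to `0` if `w.length = c`).  `(w.map x).prod e_[] = e_w`.
`D T = ∑_{w.length = n} (T e_[]) w • φ w`. -/
def S_FRE : Prop := ∀ (q c : ℕ) [NeZero q] (X : Type) [Finite X],
  (∀ n : ℕ, 1 ≤ n → n ≤ c → IsUnit (n : ZMod q)) →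
  ∃ (S : Type) (_ : Ring S) (_ : Finite S) (_ : Algebra (ZMod q) S) (A : Fil (ZMod q) S c)
    (x : X → S), IsFree A x

/-- LCS (80 lines).  `[γ m, γ n] ≤ γ (m+n+1)`.  Induction on `n` (all `m`) with the three subgroups lemma
(`Subgroup.commutator_commutator_eq_bot_of_rotate` in the quotient, or the Hall–Witt identity and
normality). -/
def S_LCS : Prop := ∀ (Γ : Type) [Group Γ] (m n : ℕ), ⁅gm Γ m, gm Γ n⁆ ≤ gm Γ (m + n + 1)

/-- CID (150 lines).  Multilinearity and Jacobi identity modulo higher terms (`a` of weight `i+1`, …).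
Proof.  `⁅a a', b⁆ = a ⁅a', b⁆ a⁻¹ ⁅a, b⁆`, LCS; Hall–Witt identity; conjugation by any element changes an
element of `γ n` by an element of `γ (n+1)`. -/
def S_CID : Prop := ∀ (Γ : Type) [Group Γ] (i j l : ℕ),
  (∀ a ∈ gm Γ i, ∀ a' ∈ gm Γ i, ∀ b ∈ gm Γ j,
    ⁅a * a', b⁆ * (⁅a, b⁆ * ⁅a', b⁆)⁻¹ ∈ gm Γ (i + j + 2)) ∧
  (∀ a ∈ gm Γ i, ∀ b ∈ gm Γ j, ∀ b' ∈ gm Γ j,
    ⁅a, b * b'⁆ * (⁅a, b⁆ * ⁅a, b'⁆)⁻¹ ∈ gm Γ (i + j + 2)) ∧
  (∀ a ∈ gm Γ i, ∀ b ∈ gm Γ j, ∀ d ∈ gm Γ l,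
    ⁅⁅a, b⁆, d⁆ * ⁅⁅b, d⁆, a⁆ * ⁅⁅d, a⁆, b⁆ ∈ gm Γ (i + j + l + 3))

/-- GEN (120 lines).  `γ m` is generated modulo `γ (m+1)` by the left normed commutators of length `m+1` of
generators.  Proof.  Induction on `m`, CID (`⁅∏ c_w^{±}, ∏ f^{±}⁆ ≡ ∏ ⁅c_w, f⁆^{±}`). -/
def S_GEN : Prop := ∀ (Γ : Type) [Group Γ] (X : Type) (f : X → Γ),
  Subgroup.closure (Set.range f) = ⊤ → ∀ m : ℕ,
  gm Γ m ≤ Subgroup.closure {g | ∃ w : List X, w.length = m + 1 ∧ g = gc f w} ⊔ gm Γ (m + 1)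

/-- DSW (250 lines).  Dynkin–Specht–Wever.  `μ` is a homomorphism from `γ n` (weight `n+1`) to an abelian
group, zero on `γ (n+1)`; `D` is additive on the ring `S` with `D (x_w) = μ (gc f w)` for words of length
`n+1`.  Then `D (rc x w) = (n+1) μ (gc f w)`.
Proof.  `gc f w ∈ γ (w.length - 1)`.  Write `g·v` for the left normed commutator
`⁅…⁅g, f v_1⁆, …, f v_r⁆` (`foldl`); for fixed `v` it is additive in `g` modulo higher terms (CID).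
CLAIM: for nonempty words `u, w` and any `v` with `|u| + |w| + |v| = n+1`:
`D (x_u * rc x w * x_v) = μ (⁅gc f u, gc f w⁆·v)`; induction on `w` from the right
(`List.reverseRecOn`): `rc (w ++ [a]) = rc w * x_a - x_a * rc w`, so the left side is
`μ(⁅gc u, gc w⁆·(a v)) - μ(⁅gc (u ++ [a]), gc w⁆·v)`, and `gc (u ++ [a]) = ⁅gc u, f a⁆`; the Jacobi identity
`⁅⁅u,w⁆,a⁆ ⁅⁅u,a⁆,w⁆⁻¹ ≡ ⁅u,⁅w,a⁆⁆` and `⁅b,a⁆ = ⁅a,b⁆⁻¹` finish.  Base `w = [a]`: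
`D (x_u x_a x_v) = μ (gc (u ++ [a] ++ v))`.
THEOREM, more generally `D (rc x w * x_v) = |w| μ (gc w·v)`: induction on `w`:
`rc (w ++ [a]) x_v = rc w x_a x_v - x_a rc w x_v`, the first is `|w| μ(gc w·(a v))`, the second (CLAIM with
`u = [a]`) is `μ(⁅f a, gc w⁆·v) = - μ(⁅gc w, f a⁆·v)`. -/
def S_DSW : Prop := ∀ (Γ : Type) [Group Γ] (X : Type) (f : X → Γ) (n : ℕ) (M : Type) [AddCommGroup M]
  (μ : gm Γ n →* Multiplicative M), (∀ g : gm Γ n, (g : Γ) ∈ gm Γ (n + 1) → μ g = 1) →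
  ∀ (S : Type) [Ring S] (x : X → S) (D : S →+ M) (φ : List X → M),
  (∀ w : List X, w.length = n + 1 → D ((w.map x).prod) = φ w) →
  (∀ w : List X, w.length = n + 1 → ∀ h : gc f w ∈ gm Γ n,
    φ w = Multiplicative.toAdd (μ ⟨gc f w, h⟩)) →
  ∀ w : List X, w.length = n + 1 → D (rc x w) = (n + 1) • φ w

/-- MAG (120 lines).  Group commutators and ring commutators.
Proof.  If `g = 1 + a`, `h = 1 + b`, `a ∈ F i`, `b ∈ F j`, `i, j ≥ 1`, then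
`⁅g, h⁆ - 1 = (gh - hg) g⁻¹ h⁻¹ = cm a b * g⁻¹ h⁻¹ ≡ cm a b mod F (i+j+1)`; induction on the word.
(`g⁻¹ - 1 = -g⁻¹ a`; `g⁻¹ ∈ F 0`: geometric series.) -/
def S_MAG : Prop := ∀ (R S : Type) [CommRing R] [Ring S] [Algebra R S] (c : ℕ) (A : Fil R S c)
  (X : Type) (x : X → S) (f : X → Sˣ), (∀ j, x j ∈ A.F 1) → (∀ j, (f j : S) = 1 + x j) →
  (∀ g : Sˣ, (g : S) - 1 ∈ A.F 1 → ((g⁻¹ : Sˣ) : S) - 1 ∈ A.F 1) ∧
  (∀ i, 1 ≤ i → ∀ g h : Sˣ, (g : S) - 1 ∈ A.F i → (h : S) - 1 ∈ A.F 1 →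
    ((⁅g, h⁆ : Sˣ) : S) - 1 ∈ A.F (i + 1)) ∧
  ∀ w : List X, w ≠ [] → ((gc f w : Sˣ) : S) - 1 - rc x w ∈ A.F (w.length + 1)

/-- EXQ (60 lines).  `(1+u)^{p^N} = 1` since `p^N ∣ C(p^N, i)` for `1 ≤ i ≤ c < p` and `u^i = 0` for
`i > c`. -/
def S_EXQ : Prop := ∀ (p N c : ℕ), p.Prime → c < p → ∀ (S : Type) [Ring S] [Algebra (ZMod (p ^ N)) S]
  (A : Fil (ZMod (p ^ N)) S c), ∀ u ∈ A.F 1, (1 + u) ^ (p ^ N) = 1

/-- COV (200 lines).  The cover `Γ = ⟨(1 + x_j, k_j)⟩ ≤ Sˣ × K` is embedded into `Sˣ` by the first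
projection.
Proof.  Let `Γ' = ↥Γ`, `f j = (1+x_j, k_j) ∈ Γ'` (generators).  `Γ'` has exponent dividing `p^N` (EXQ) and
`gm Γ' c = ⊥` (MAG (ii): the first coordinates of `gm Γ' m` are in `1 + F (m+1)`; second coordinates are
in `gm K m`).  Let `z = (1, κ) ∈ Γ'`.  Show `z ∈ gm Γ' n` for all `n ≤ c` by induction:
let `z ∈ gm Γ' n`, `n < c`, `M = gm Γ' n / gm Γ' (n+1)` written additively, an abelian group killed by
`p^N`, so a `ZMod (p^N)`-module; `μ` the projection; `φ w = μ (gc f w)` for `w.length = n+1` (else `0`);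
`D` from `IsFree` (degree `n+1 ≤ c`).  By GEN `z = ∏ (gc f w)^{±1} · g'`; first coordinates: `1 ≡ 1 +
∑ ± rc x w mod F (n+2)` (MAG (iii), products of elements of `1 + F (n+1)` are additive mod `F (n+2)`), so
`∑ ± rc x w ∈ F (n+2)`, hence by DSW `0 = D (∑ ± rc x w) = (n+1) ∑ ± φ w = (n+1) μ z`; `n+1 ≤ c < p`
is invertible on `M`, so `μ z = 0`, `z ∈ gm Γ' (n+1)`. -/
def S_COV : Prop := ∀ (p N c : ℕ), p.Prime → c < p → ∀ (S : Type) [Ring S]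
  [Algebra (ZMod (p ^ N)) S] (A : Fil (ZMod (p ^ N)) S c) (X : Type) (x : X → S), IsFree A x →
  ∀ (K : Type) [Group K] (k : X → K) (u : X → Sˣ), gm K c = ⊥ → (∀ g : K, g ^ (p ^ N) = 1) →
  (∀ j, (u j : S) = 1 + x j) →
  ∀ κ : K, ((1 : Sˣ), κ) ∈ Subgroup.closure (Set.range fun j => (u j, k j)) → κ = 1

/-- LAZ (120 lines).  Assembly: every finite `p`-group of class `≤ c < p` has a Lie structure.
Proof.  `|K| = p^N`, FRE with `X = K`, `q = p^N`; `u_g = 1 + x_g` is a unit (EXB: `1 + x_g = e^y`, inverse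
`e^{-y}`, EXA); `Γ = closure {(u_g, g)}`, the first projection is injective on `Γ` (COV), let `H` be its
image; `θ : H → K` the second coordinate (surjective); `H ⊆ 1 + F 1`; QUA, QUB. -/
def S_LAZ : Prop := ∀ (p c : ℕ), p.Prime → c < p → ∀ (K : Type) [Group K] [Finite K],
  IsPGroup p K → gm K c = ⊥ → HasLExp K

end H70.LZ
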